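import Pool.Agent.Helper76.S7.StC

/-!
# Project W7, module E1: even exponent, four plane functions of a new symbol
-/

set_option autoImplicit false

namespace Pool.Agent.Helper9.S7

open Pool.Agent.Helper76.S7 Pool.Agent.Helper14.W5
open Pool.Agent.Helper14.CV (Homog EqC act Tl StFar StFex ne_zero_of_det)
open Pool.Agent.Helper28.WK (SymP Tw evw Ok)

private lemma z1 (j : ℕ) : (7 : ZMod (7 ^ (j + 1))) ^ (j + 1) = 0 := by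
  have h := ZMod.natCast_self (7 ^ (j + 1))
  push_cast at h
  exact h

private lemma z2 (j : ℕ) : (7 : ZMod (7 ^ (j + 1))) ^ (j + 2) = 0 := by
  rw [pow_succ (7 : ZMod (7 ^ (j + 1))) (j + 1), z1, zero_mul]

private lemma dvd7 {n : ℤ} : (7 : ℤ) ∣ n ↔ (n : ZMod 7) = 0 :=
  (ZMod.intCast_zmod_eq_zero_iff_dvd n 7).symm

/-- `α + 49 γ x` is a unit -/
private lemma un (j : ℕ) {α β γ δ : ℤ} (h : α * δ - 49 * β * γ = 1) (x : ZMod (7 ^ (j + 1))) :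
    IsUnit ((α : ZMod (7 ^ (j + 1))) + 7 ^ (1 + 1) * γ * x) := by
  obtain ⟨X, rfl⟩ := ZMod.intCast_surjective x
  have : IsUnit (((α + 7 ^ (1 + 1) * γ * X : ℤ) : ZMod (7 ^ (j + 1)))) := by
    rw [ZMod.coe_int_isUnit_iff_isCoprime]
    push_cast
    exact IsCoprime.pow_left ⟨-7 * (β * γ) - 7 * (γ * X * δ), δ, by linear_combination h⟩
  push_cast at this
  have e : (49 : ZMod (7 ^ (j + 1))) = 7 ^ (1 + 1) := by norm_num
  rwa [e] at this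

/-- every matrix has coordinates -/
private lemma exPl (j : ℕ) {a b c d : ℤ} (h : a * d - 49 * b * c = 1) :
    ∃ x y : ZMod (7 ^ (j + 1)), Pl7 1 a b c d x y := by
  have ha : IsUnit (a : ZMod (7 ^ (j + 1))) := by
    have := un j h 0
    rwa [mul_zero, add_zero] at this
  have h' : d * a - 49 * b * c = 1 := by linear_combination h
  have hd : IsUnit (d : ZMod (7 ^ (j + 1))) := by
    have := un j h' 0
    rwa [mul_zero, add_zero] at this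
  refine ⟨b * (a : ZMod (7 ^ (j + 1)))⁻¹, c * (d : ZMod (7 ^ (j + 1)))⁻¹,
    by linear_combination h, ?_, ?_⟩
  · rw [mul_assoc, ZMod.inv_mul_of_unit _ ha, mul_one]
  · rw [mul_assoc, ZMod.inv_mul_of_unit _ hd, mul_one]

private lemma exM (hPlA : S7PlA) (j : ℕ) (x y : ZMod (7 ^ (j + 1))) :
    ∃ b c d : ℤ, Pl7 1 1 b c d x y :=
  ⟨_, _, _, hPlA 1 (j + 1) (j + 1) x y⟩

private lemma nz {a b c d : ℤ} (h : a * d - 7 ^ (1 + 1) * b * c = 1) {u1 u2 : ℤ}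
    (hu : u1 ≠ 0 ∨ u2 ≠ 0) : a * u1 + 7 ^ 1 * b * u2 ≠ 0 ∨ 7 * c * u1 + d * u2 ≠ 0 :=
  ne_zero_of_det (a := a) (b := 7 ^ 1 * b) (c := 7 * c) (d := d)
    (by intro h0; have : (1 : ℤ) = 0 := by linear_combination h0 - h
        exact absurd this one_ne_zero) hu

/-- the matrix `(1 7^(j+1) i; 0 1) g` -/
private lemma plT (j : ℕ) (i : ℤ) {b c d : ℤ} {x y : ZMod (7 ^ (j + 1))}
    (h : Pl7 1 1 b c d x y) :
    Pl7 1 (1 + 7 ^ (j + 2) * i * c) (b + 7 ^ j * i * d) c d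
      (x + (i : ZMod (7 ^ (j + 1))) * 7 ^ j) y := by
  obtain ⟨h1, h2, h3⟩ := h
  have e : (d : ZMod (7 ^ (j + 1))) = 1 + 49 * b * c := by
    have := congrArg (Int.cast : ℤ → ZMod (7 ^ (j + 1))) h1
    push_cast at this
    linear_combination this
  refine ⟨by linear_combination h1, ?_, h3⟩
  push_cast at h2 ⊢
  linear_combination h2 + (i : ZMod (7 ^ (j + 1))) * 7 ^ j * e +
    7 * (i : ZMod (7 ^ (j + 1))) * b * c * z1 j -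
    (x + i * 7 ^ j) * (i : ZMod (7 ^ (j + 1))) * (c : ZMod (7 ^ (j + 1))) * z2 j

/-- the matrix `(1 0; 7^(j+1) i 1) g` -/
private lemma plL (j : ℕ) (i : ℤ) {b c d : ℤ} {x y : ZMod (7 ^ (j + 1))}
    (h : Pl7 1 1 b c d x y) :
    Pl7 1 1 b (c + 7 ^ j * i) (d + 7 ^ (j + 2) * i * b) x
      (y + (i : ZMod (7 ^ (j + 1))) * 7 ^ j) := by
  obtain ⟨h1, h2, h3⟩ := h
  have e : (d : ZMod (7 ^ (j + 1))) = 1 + 49 * b * c := by
    have := congrArg (Int.cast : ℤ → ZMod (7 ^ (j + 1))) h1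
    push_cast at this
    linear_combination this
  refine ⟨by linear_combination h1, h2, ?_⟩
  push_cast
  linear_combination h3 - (i : ZMod (7 ^ (j + 1))) * 7 ^ j * e -
    7 * (i : ZMod (7 ^ (j + 1))) * b * c * z1 j -
    (y + i * 7 ^ j) * (i : ZMod (7 ^ (j + 1))) * (b : ZMod (7 ^ (j + 1))) * z2 j

/-- the matrix `g m` -/
private lemma plM {q : ℕ} {a b c d α β γ δ : ℤ} {x y x' y' : ZMod q} (h : Pl7 1 a b c d x y)
    (hm : α * δ - 49 * β * γ = 1)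
    (hx : x' * (α + 49 * γ * x) = β + δ * x) (hy : y' * (δ + 49 * β * y) = γ + α * y) :
    Pl7 1 (a * α + 49 * b * γ) (a * β + b * δ) (c * α + d * γ) (49 * c * β + d * δ) x' y' := by
  obtain ⟨h1, h2, h3⟩ := h
  refine ⟨by linear_combination (a * d - 49 * b * c) * hm + h1, ?_, ?_⟩
  · push_cast
    rw [h2]
    linear_combination -(a : ZMod q) * hx
  · push_cast
    rw [h3]
    linear_combination -(d : ZMod q) * hy

private lemma homm {G : ℤ → ℤ → ℂ} (h : Homog G) {p q : ℤ} (hpq : p ≠ 0 ∨ q ≠ 0) :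
    G (-p) (-q) = G p q := by
  have := h (-1) p q (by norm_num) hpq
  rwa [neg_one_mul, neg_one_mul] at this

/-- the value at `g u` -/
private def V (G : ℤ → ℤ → ℂ) (a b c d u1 u2 : ℤ) : ℂ :=
  G (a * u1 + 7 ^ 1 * b * u2) (7 * c * u1 + d * u2)

section

variable {j : ℕ} {G : ℤ → ℤ → ℂ}

/-- the value of the symbol by any matrix with the given coordinates -/
private lemma ed (hEdg : S7Edg) (hS : SymP 7 (j + 2) (j + 2) G) {u1 u2 v1 v2 : ℤ}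
    (hu : u1 ≠ 0 ∨ u2 ≠ 0) (hv : v1 ≠ 0 ∨ v2 ≠ 0) {a b c d : ℤ} {x y : ZMod (7 ^ (j + 1))}
    (h : Pl7 1 a b c d x y) :
    edge7 1 u1 u2 v1 v2 G x y = V G a b c d u1 u2 - V G a b c d v1 v2 :=
  hEdg ℂ _ 1 (j + 1) (j + 1) G hS u1 u2 v1 v2 hu hv x y a b c d h

private lemma Vneg (hS : SymP 7 (j + 2) (j + 2) G) {a b c d : ℤ} {x y : ZMod (7 ^ (j + 1))}
    (h : Pl7 1 a b c d x y) {u1 u2 : ℤ} (hu : u1 ≠ 0 ∨ u2 ≠ 0) :
    V G a b c d (-u1) (-u2) = V G a b c d u1 u2 := by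
  have e := homm hS.1 (nz h.1 hu)
  unfold V
  rw [← e]
  congr 1 <;> ring

private lemma shx (hPlA : S7PlA) (hEdg : S7Edg) (hB : BalE7 (j + 2) G) {u1 u2 v1 v2 : ℤ}
    (hu : u1 ≠ 0 ∨ u2 ≠ 0) (hv : v1 ≠ 0 ∨ v2 ≠ 0) (x y : ZMod (7 ^ (j + 1))) :
    ∑ i ∈ Finset.range 7,
      edge7 1 u1 u2 v1 v2 G (x + (i : ZMod (7 ^ (j + 1))) * 7 ^ j) y = 0 := by
  obtain ⟨hS, hT, -, -, -⟩ := hB
  obtain ⟨b, c, d, h⟩ := exM hPlA j x y
  have e := hT.diff (nz h.1 hu) (nz h.1 hv)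
  simp only [Finset.sum_apply, act, Pi.zero_apply, sub_zero] at e
  rw [← Finset.sum_sub_distrib] at e
  rw [← e]
  refine Finset.sum_congr rfl fun i _ => ?_
  have g := plT j (i : ℤ) h
  rw [Int.cast_natCast] at g
  rw [ed hEdg hS hu hv g]
  have ej : j + 2 - 1 = j + 1 := rfl
  unfold V
  rw [ej]
  congr 1 <;> congr 1 <;> ring

private lemma shy (hPlA : S7PlA) (hEdg : S7Edg) (hB : BalE7 (j + 2) G) {u1 u2 v1 v2 : ℤ}
    (hu : u1 ≠ 0 ∨ u2 ≠ 0) (hv : v1 ≠ 0 ∨ v2 ≠ 0) (x y : ZMod (7 ^ (j + 1))) :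
    ∑ i ∈ Finset.range 7,
      edge7 1 u1 u2 v1 v2 G x (y + (i : ZMod (7 ^ (j + 1))) * 7 ^ j) = 0 := by
  obtain ⟨hS, -, hT, -, -⟩ := hB
  obtain ⟨b, c, d, h⟩ := exM hPlA j x y
  have e := hT.diff (nz h.1 hu) (nz h.1 hv)
  simp only [Finset.sum_apply, act, Pi.zero_apply, sub_zero] at e
  rw [← Finset.sum_sub_distrib] at e
  rw [← e]
  refine Finset.sum_congr rfl fun i _ => ?_
  have g := plL j (i : ℤ) h
  rw [Int.cast_natCast] at g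
  rw [ed hEdg hS hu hv g]
  have ej : j + 2 - 1 = j + 1 := rfl
  unfold V
  rw [ej]
  congr 1 <;> congr 1 <;> ring

/-- conjugation by `b = (0 1; 1 0)` -/
private lemma swl (hPlA : S7PlA) (hEdg : S7Edg) (hB : BalE7 (j + 2) G) {u1 u2 v1 v2 : ℤ}
    (hu : u1 ≠ 0 ∨ u2 ≠ 0) (hv : v1 ≠ 0 ∨ v2 ≠ 0) (x y : ZMod (7 ^ (j + 1))) :
    edge7 1 u1 u2 v1 v2 G y x = -edge7 1 u2 u1 v2 v1 G x y := by
  obtain ⟨hS, -, -, hW, hT⟩ := hB
  obtain ⟨b, c, d, h⟩ := exM hPlA j x y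
  have h' : Pl7 1 d c b 1 y x := by
    obtain ⟨h1, h2, h3⟩ := h
    exact ⟨by linear_combination h1, h3, h2⟩
  have hu' : u2 ≠ 0 ∨ u1 ≠ 0 := hu.symm
  have hv' : v2 ≠ 0 ∨ v1 ≠ 0 := hv.symm
  rw [ed hEdg hS hu' hv' h, ed hEdg hS hu hv h']
  have e := hW.diff (nz h.1 hu') (nz h.1 hv')
  have nS : ∀ {s t : ℤ}, (s ≠ 0 ∨ t ≠ 0) → (0 * s + -1 * t ≠ 0 ∨ 1 * s + 0 * t ≠ 0) := by
    intro s t hst
    simp only [zero_mul, zero_add, one_mul, add_zero, neg_mul, ne_eq, neg_eq_zero]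
    exact hst.symm
  have f := hT.diff (nS (nz h.1 hu')) (nS (nz h.1 hv'))
  simp only [act, Pi.neg_apply] at e f
  rw [← f] at e
  unfold V
  have e1 : ∀ s t : ℤ, -1 * (0 * (1 * t + 7 ^ 1 * b * s) + -1 * (7 * c * t + d * s)) +
      0 * (1 * (1 * t + 7 ^ 1 * b * s) + 0 * (7 * c * t + d * s)) = d * s + 7 ^ 1 * c * t := by
    intro s t; ring
  have e2 : ∀ s t : ℤ, 0 * (0 * (1 * t + 7 ^ 1 * b * s) + -1 * (7 * c * t + d * s)) +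
      1 * (1 * (1 * t + 7 ^ 1 * b * s) + 0 * (7 * c * t + d * s)) = 7 * b * s + 1 * t := by
    intro s t; ring
  rw [e1 u1 u2, e1 v1 v2, e2 u1 u2, e2 v1 v2] at e
  rw [e]
  ring

/-- conjugation by `*` -/
private lemma ngl (hPlA : S7PlA) (hEdg : S7Edg) (hB : BalE7 (j + 2) G) {u1 u2 v1 v2 : ℤ}
    (hu : u1 ≠ 0 ∨ u2 ≠ 0) (hv : v1 ≠ 0 ∨ v2 ≠ 0) (x y : ZMod (7 ^ (j + 1))) :
    edge7 1 u1 u2 v1 v2 G (-x) (-y) = edge7 1 (-u1) u2 (-v1) v2 G x y := by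
  obtain ⟨hS, -, -, -, hW⟩ := hB
  obtain ⟨b, c, d, h⟩ := exM hPlA j x y
  have h' : Pl7 1 1 (-b) (-c) d (-x) (-y) := by
    obtain ⟨h1, h2, h3⟩ := h
    refine ⟨by linear_combination h1, ?_, ?_⟩
    · push_cast at h2 ⊢; linear_combination -h2
    · push_cast; linear_combination -h3
  have hu' : -u1 ≠ 0 ∨ u2 ≠ 0 := by rcases hu with h | h <;> [left; right] <;> simpa using h
  have hv' : -v1 ≠ 0 ∨ v2 ≠ 0 := by rcases hv with h | h <;> [left; right] <;> simpa using h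
  rw [ed hEdg hS hu' hv' h, ed hEdg hS hu hv h']
  have e := hW.diff (nz h.1 hu') (nz h.1 hv')
  simp only [act] at e
  unfold V
  have e1 : ∀ s t : ℤ, -1 * (1 * -s + 7 ^ 1 * b * t) + 0 * (7 * c * -s + d * t) =
      1 * s + 7 ^ 1 * -b * t := by intro s t; ring
  have e2 : ∀ s t : ℤ, 0 * (1 * -s + 7 ^ 1 * b * t) + 1 * (7 * c * -s + d * t) =
      7 * -c * s + d * t := by intro s t; ring
  rw [e1 u1 u2, e1 v1 v2, e2 u1 u2, e2 v1 v2] at e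
  exact e

/-- multiplication by a matrix on the right -/
private lemma rm (hPlA : S7PlA) (hEdg : S7Edg) (hB : BalE7 (j + 2) G) {u1 u2 v1 v2 : ℤ}
    (hu : u1 ≠ 0 ∨ u2 ≠ 0) (hv : v1 ≠ 0 ∨ v2 ≠ 0) {α β γ δ : ℤ}
    (hm : α * δ - 49 * β * γ = 1) (p : Pt (j + 1)) :
    edge7 1 u1 u2 v1 v2 G (trp 1 α β γ δ p).1 (trp 1 α β γ δ p).2 =
      edge7 1 (α * u1 + 7 * β * u2) (7 * γ * u1 + δ * u2) (α * v1 + 7 * β * v2)
        (7 * γ * v1 + δ * v2) G p.1 p.2 := by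
  obtain ⟨b, c, d, h⟩ := exM hPlA j p.1 p.2
  have hm' : δ * α - 49 * γ * β = 1 := by linear_combination hm
  have hx : (trp 1 α β γ δ p).1 * ((α : ZMod (7 ^ (j + 1))) + 49 * γ * p.1) = β + δ * p.1 := by
    have := ZMod.inv_mul_of_unit _ (un j hm p.1)
    unfold trp
    rw [mul_assoc]
    have e : (49 : ZMod (7 ^ (j + 1))) = 7 ^ (1 + 1) := by norm_num
    rw [e, this, mul_one]
  have hy : (trp 1 α β γ δ p).2 * ((δ : ZMod (7 ^ (j + 1))) + 49 * β * p.2) = γ + α * p.2 := by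
    have := ZMod.inv_mul_of_unit _ (un j hm' p.2)
    unfold trp
    rw [mul_assoc]
    have e : (49 : ZMod (7 ^ (j + 1))) = 7 ^ (1 + 1) := by norm_num
    rw [e, this, mul_one]
  have h' := plM h hm hx hy
  have hdet : α * δ - 7 * β * (7 * γ) ≠ 0 := by
    intro h0
    have : (1 : ℤ) = 0 := by linear_combination h0 - hm
    exact absurd this one_ne_zero
  have hu' := ne_zero_of_det (a := α) (b := 7 * β) (c := 7 * γ) (d := δ) hdet hu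
  have hv' := ne_zero_of_det (a := α) (b := 7 * β) (c := 7 * γ) (d := δ) hdet hv
  rw [ed hEdg hB.1 hu' hv' h, ed hEdg hB.1 hu hv h']
  unfold V
  congr 1 <;> congr 1 <;> ring

private lemma sw_rw (hPlA : S7PlA) (hEdg : S7Edg) (hB : BalE7 (j + 2) G) {u1 u2 v1 v2 : ℤ}
    (hu : u1 ≠ 0 ∨ u2 ≠ 0) (hv : v1 ≠ 0 ∨ v2 ≠ 0) (p : Pt (j + 1)) :
    edge7 1 u1 u2 v1 v2 G (sw p).1 (sw p).2 = -edge7 1 u2 u1 v2 v1 G p.1 p.2 :=
  swl hPlA hEdg hB hu hv p.1 p.2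

private lemma ng_rw (hPlA : S7PlA) (hEdg : S7Edg) (hB : BalE7 (j + 2) G) {u1 u2 v1 v2 : ℤ}
    (hu : u1 ≠ 0 ∨ u2 ≠ 0) (hv : v1 ≠ 0 ∨ v2 ≠ 0) (p : Pt (j + 1)) :
    edge7 1 u1 u2 v1 v2 G (ng p).1 (ng p).2 = edge7 1 (-u1) u2 (-v1) v2 G p.1 p.2 :=
  ngl hPlA hEdg hB hu hv p.1 p.2

/-- circles: a matrix after `sw` -/
private lemma ci (hPlA : S7PlA) (hEdg : S7Edg) (hB : BalE7 (j + 2) G) {α β γ δ : ℤ}
    (hm : α * δ - 49 * β * γ = 1) {u1 u2 v1 v2 : ℤ}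
    (hu : u1 ≠ 0 ∨ u2 ≠ 0) (hv : v1 ≠ 0 ∨ v2 ≠ 0) (p : Pt (j + 1)) :
    edge7 1 u1 u2 v1 v2 G (trp 1 α β γ δ (sw p)).1 (trp 1 α β γ δ (sw p)).2 =
      -edge7 1 (7 * γ * u1 + δ * u2) (α * u1 + 7 * β * u2) (7 * γ * v1 + δ * v2)
        (α * v1 + 7 * β * v2) G p.1 p.2 := by
  have hdet : α * δ - 7 * β * (7 * γ) ≠ 0 := by
    intro h0
    have : (1 : ℤ) = 0 := by linear_combination h0 - hm
    exact absurd this one_ne_zero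
  rw [rm hPlA hEdg hB hu hv hm (sw p)]
  exact sw_rw hPlA hEdg hB
    (ne_zero_of_det (a := α) (b := 7 * β) (c := 7 * γ) (d := δ) hdet hu)
    (ne_zero_of_det (a := α) (b := 7 * β) (c := 7 * γ) (d := δ) hdet hv) p

private lemma c1_rw (hPlA : S7PlA) (hEdg : S7Edg) (hB : BalE7 (j + 2) G) {u1 u2 v1 v2 : ℤ}
    (hu : u1 ≠ 0 ∨ u2 ≠ 0) (hv : v1 ≠ 0 ∨ v2 ≠ 0) (p : Pt (j + 1)) :
    edge7 1 u1 u2 v1 v2 G (c1 p).1 (c1 p).2 =
      -edge7 1 (7 * 1 * u1 + -8 * u2) (6 * u1 + 7 * -1 * u2) (7 * 1 * v1 + -8 * v2)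
        (6 * v1 + 7 * -1 * v2) G p.1 p.2 :=
  ci hPlA hEdg hB (by norm_num) hu hv p

private lemma c2_rw (hPlA : S7PlA) (hEdg : S7Edg) (hB : BalE7 (j + 2) G) {u1 u2 v1 v2 : ℤ}
    (hu : u1 ≠ 0 ∨ u2 ≠ 0) (hv : v1 ≠ 0 ∨ v2 ≠ 0) (p : Pt (j + 1)) :
    edge7 1 u1 u2 v1 v2 G (c2 p).1 (c2 p).2 =
      -edge7 1 (7 * 1 * u1 + -16 * u2) (3 * u1 + 7 * -1 * u2) (7 * 1 * v1 + -16 * v2)
        (3 * v1 + 7 * -1 * v2) G p.1 p.2 :=
  ci hPlA hEdg hB (by norm_num) hu hv p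

private lemma c3_rw (hPlA : S7PlA) (hEdg : S7Edg) (hB : BalE7 (j + 2) G) {u1 u2 v1 v2 : ℤ}
    (hu : u1 ≠ 0 ∨ u2 ≠ 0) (hv : v1 ≠ 0 ∨ v2 ≠ 0) (p : Pt (j + 1)) :
    edge7 1 u1 u2 v1 v2 G (c3 p).1 (c3 p).2 =
      -edge7 1 (7 * 2 * u1 + -39 * u2) (5 * u1 + 7 * -2 * u2) (7 * 2 * v1 + -39 * v2)
        (5 * v1 + 7 * -2 * v2) G p.1 p.2 :=
  ci hPlA hEdg hB (by norm_num) hu hv p

private lemma c4_rw (hPlA : S7PlA) (hEdg : S7Edg) (hB : BalE7 (j + 2) G) {u1 u2 v1 v2 : ℤ}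
    (hu : u1 ≠ 0 ∨ u2 ≠ 0) (hv : v1 ≠ 0 ∨ v2 ≠ 0) (p : Pt (j + 1)) :
    edge7 1 u1 u2 v1 v2 G (c4 p).1 (c4 p).2 =
      -edge7 1 (7 * 1 * u1 + -24 * u2) (2 * u1 + 7 * -1 * u2) (7 * 1 * v1 + -24 * v2)
        (2 * v1 + 7 * -1 * v2) G p.1 p.2 :=
  ci hPlA hEdg hB (by norm_num) hu hv p

private lemma dl_rw (hPlA : S7PlA) (hEdg : S7Edg) (hB : BalE7 (j + 2) G) {u1 u2 v1 v2 : ℤ}
    (hu : u1 ≠ 0 ∨ u2 ≠ 0) (hv : v1 ≠ 0 ∨ v2 ≠ 0) (p : Pt (j + 1)) :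
    edge7 1 u1 u2 v1 v2 G (dl p).1 (dl p).2 =
      -edge7 1 (7 * -1 * u1 + 10 * u2) (-(5 * u1 + 7 * -1 * u2)) (7 * -1 * v1 + 10 * v2)
        (-(5 * v1 + 7 * -1 * v2)) G p.1 p.2 := by
  have hdet : (5 : ℤ) * 10 - 7 * -1 * (7 * -1) ≠ 0 := by norm_num
  have r := rm hPlA hEdg hB hu hv (α := 5) (β := -1) (γ := -1) (δ := 10) (by norm_num) (ng (sw p))
  refine r.trans ?_
  have n1 := ne_zero_of_det hdet hu
  have n2 := ne_zero_of_det hdet hv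
  have r2 := ng_rw hPlA hEdg hB n1 n2 (sw p)
  refine r2.trans ?_
  have m1 : -(5 * u1 + 7 * -1 * u2) ≠ 0 ∨ 7 * -1 * u1 + 10 * u2 ≠ 0 := by
    rcases n1 with h | h
    · left; exact neg_ne_zero.2 h
    · right; exact h
  have m2 : -(5 * v1 + 7 * -1 * v2) ≠ 0 ∨ 7 * -1 * v1 + 10 * v2 ≠ 0 := by
    rcases n2 with h | h
    · left; exact neg_ne_zero.2 h
    · right; exact h
  exact sw_rw hPlA hEdg hB m1 m2 p

private lemma dR_rw (hPlA : S7PlA) (hEdg : S7Edg) (hB : BalE7 (j + 2) G) {u1 u2 v1 v2 : ℤ}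
    (hu : u1 ≠ 0 ∨ u2 ≠ 0) (hv : v1 ≠ 0 ∨ v2 ≠ 0) (p : Pt (j + 1)) :
    edge7 1 u1 u2 v1 v2 G (dR 1 p).1 (dR 1 p).2 =
      edge7 1 (-(1 * u1 + 7 * -1 * u2)) (7 * 0 * u1 + 1 * u2) (-(1 * v1 + 7 * -1 * v2))
        (7 * 0 * v1 + 1 * v2) G p.1 p.2 := by
  have hdet : (1 : ℤ) * 1 - 7 * -1 * (7 * 0) ≠ 0 := by norm_num
  have r := rm hPlA hEdg hB hu hv (α := 1) (β := -1) (γ := 0) (δ := 1) (by norm_num) (ng p)
  refine r.trans ?_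
  exact ng_rw hPlA hEdg hB (ne_zero_of_det hdet hu) (ne_zero_of_det hdet hv) p

/-- first part -/
private lemma memA (hPlA : S7PlA) (hEdg : S7Edg) (hB : BalE7 (j + 2) G) {u1 u2 v1 v2 : ℤ}
    (hu : u1 ≠ 0 ∨ u2 ≠ 0) (hv : v1 ≠ 0 ∨ v2 ≠ 0) :
    (fun p : Pt (j + 1) => edge7 1 u1 u2 v1 v2 G p.1 p.2) ∈ anti7 (j + 1) :=
  fun p => ⟨shx hPlA hEdg hB hu hv p.1 p.2, shy hPlA hEdg hB hu hv p.1 p.2⟩

private lemma l0 {s t : ℤ} (h : s ≠ 0) : s ≠ 0 ∨ t ≠ 0 := Or.inl h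

/-- the value of an edge by two vectors up to signs -/
private lemma rel1 (hPlA : S7PlA) (hEdg : S7Edg) (hB : BalE7 (j + 2) G) (p : Pt (j + 1)) :
    edge7 1 1 0 1 1 G p.1 p.2 - edge7 1 1 0 1 1 G (ng p).1 (ng p).2 +
      edge7 1 1 0 1 1 G (sw p).1 (sw p).2 - edge7 1 1 0 1 1 G (ng (sw p)).1 (ng (sw p)).2 = 0 := by
  rw [ng_rw hPlA hEdg hB (l0 (by norm_num)) (l0 (by norm_num)) p,
    ng_rw hPlA hEdg hB (l0 (by norm_num)) (l0 (by norm_num)) (sw p),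
    sw_rw hPlA hEdg hB (l0 (by norm_num)) (l0 (by norm_num)) p,
    sw_rw hPlA hEdg hB (l0 (by norm_num)) (l0 (by norm_num)) p]
  obtain ⟨b, c, d, h⟩ := exM hPlA j p.1 p.2
  rw [ed hEdg hB.1 (by norm_num) (by norm_num) h, ed hEdg hB.1 (by norm_num) (by norm_num) h,
    ed hEdg hB.1 (by norm_num) (by norm_num) h, ed hEdg hB.1 (by norm_num) (by norm_num) h]
  have v1 := Vneg hB.1 h (u1 := 1) (u2 := 0) (by norm_num)
  have v2 := Vneg hB.1 h (u1 := 0) (u2 := 1) (by norm_num)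
  have v3 := Vneg hB.1 h (u1 := -1) (u2 := 1) (by norm_num)
  norm_num at v1 v2 v3 ⊢
  rw [v1, v2, v3]
  ring

private lemma rel2 (hPlA : S7PlA) (hEdg : S7Edg) (hB : BalE7 (j + 2) G) (p : Pt (j + 1)) :
    edge7 1 1 1 4 3 G (c1 p).1 (c1 p).2 + edge7 1 1 1 4 3 G p.1 p.2 = 0 := by
  rw [c1_rw hPlA hEdg hB (by norm_num) (by norm_num) p]
  obtain ⟨b, c, d, h⟩ := exM hPlA j p.1 p.2
  rw [ed hEdg hB.1 (by norm_num) (by norm_num) h, ed hEdg hB.1 (by norm_num) (by norm_num) h]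
  have v1 := Vneg hB.1 h (u1 := 1) (u2 := 1) (by norm_num)
  norm_num at v1 ⊢
  rw [v1]
  ring

private lemma rel3 (hPlA : S7PlA) (hEdg : S7Edg) (hB : BalE7 (j + 2) G) (p : Pt (j + 1)) :
    edge7 1 4 3 2 1 G (dl p).1 (dl p).2 - edge7 1 4 3 2 1 G p.1 p.2 = 0 := by
  rw [dl_rw hPlA hEdg hB (by norm_num) (by norm_num) p]
  obtain ⟨b, c, d, h⟩ := exM hPlA j p.1 p.2
  rw [ed hEdg hB.1 (by norm_num) (by norm_num) h, ed hEdg hB.1 (by norm_num) (by norm_num) h]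
  have v1 := Vneg hB.1 h (u1 := 4) (u2 := 3) (by norm_num)
  norm_num at v1 ⊢
  rw [v1]
  ring

private lemma rel4 (hPlA : S7PlA) (hEdg : S7Edg) (hB : BalE7 (j + 2) G) (p : Pt (j + 1)) :
    edge7 1 2 1 3 1 G p.1 p.2 + edge7 1 2 1 3 1 G (c2 p).1 (c2 p).2 +
      edge7 1 2 1 3 1 G (c3 p).1 (c3 p).2 + edge7 1 2 1 3 1 G (c2 (c3 p)).1 (c2 (c3 p)).2 +
      edge7 1 2 1 3 1 G (c3 (c2 p)).1 (c3 (c2 p)).2 +
      edge7 1 2 1 3 1 G (c2 (c3 (c2 p))).1 (c2 (c3 (c2 p))).2 = 0 := by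
  have e2 : ∀ p : Pt (j + 1), edge7 1 2 1 3 1 G (c2 p).1 (c2 p).2 =
      -edge7 1 (-2) (-1) 5 2 G p.1 p.2 := by
    intro p
    have := c2_rw hPlA hEdg hB (u1 := 2) (u2 := 1) (v1 := 3) (v2 := 1) (by norm_num) (by norm_num) p
    norm_num at this
    exact this
  have e3 : ∀ p : Pt (j + 1), edge7 1 2 1 3 1 G (c3 p).1 (c3 p).2 =
      -edge7 1 (-11) (-4) 3 1 G p.1 p.2 := by
    intro p
    have := c3_rw hPlA hEdg hB (u1 := 2) (u2 := 1) (v1 := 3) (v2 := 1) (by norm_num) (by norm_num) p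
    norm_num at this
    exact this
  have e4 : ∀ p : Pt (j + 1), edge7 1 (-2) (-1) 5 2 G (c3 p).1 (c3 p).2 =
      -edge7 1 11 4 (-8) (-3) G p.1 p.2 := by
    intro p
    have := c3_rw hPlA hEdg hB (u1 := -2) (u2 := -1) (v1 := 5) (v2 := 2) (by norm_num) (by norm_num) p
    norm_num at this
    exact this
  have e5 : ∀ p : Pt (j + 1), edge7 1 (-11) (-4) 3 1 G (c2 p).1 (c2 p).2 =
      -edge7 1 (-13) (-5) 5 2 G p.1 p.2 := by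
    intro p
    have := c2_rw hPlA hEdg hB (u1 := -11) (u2 := -4) (v1 := 3) (v2 := 1) (by norm_num) (by norm_num) p
    norm_num at this
    exact this
  have e6 : ∀ p : Pt (j + 1), edge7 1 11 4 (-8) (-3) G (c2 p).1 (c2 p).2 =
      -edge7 1 13 5 (-8) (-3) G p.1 p.2 := by
    intro p
    have := c2_rw hPlA hEdg hB (u1 := 11) (u2 := 4) (v1 := -8) (v2 := -3) (by norm_num) (by norm_num) p
    norm_num at this
    exact this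
  rw [e2 p, e3 p, e2 (c3 p), e4 p, e3 (c2 p), e5 p, e2 (c3 (c2 p)), e4 (c2 p), e6 p]
  obtain ⟨b, c, d, h⟩ := exM hPlA j p.1 p.2
  rw [ed hEdg hB.1 (by norm_num) (by norm_num) h, ed hEdg hB.1 (by norm_num) (by norm_num) h,
    ed hEdg hB.1 (by norm_num) (by norm_num) h, ed hEdg hB.1 (by norm_num) (by norm_num) h,
    ed hEdg hB.1 (by norm_num) (by norm_num) h, ed hEdg hB.1 (by norm_num) (by norm_num) h]
  have v1 := Vneg hB.1 h (u1 := 2) (u2 := 1) (by norm_num)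
  have v2 := Vneg hB.1 h (u1 := 11) (u2 := 4) (by norm_num)
  have v3 := Vneg hB.1 h (u1 := 8) (u2 := 3) (by norm_num)
  have v4 := Vneg hB.1 h (u1 := 13) (u2 := 5) (by norm_num)
  rw [v1, v2, v3, v4]
  ring

private lemma rel5 (hPlA : S7PlA) (hEdg : S7Edg) (hB : BalE7 (j + 2) G) (p : Pt (j + 1)) :
    edge7 1 1 0 3 1 G p.1 p.2 + edge7 1 1 0 3 1 G (c4 p).1 (c4 p).2 -
      edge7 1 1 0 3 1 G (dR 1 p).1 (dR 1 p).2 -
      edge7 1 1 0 3 1 G (dR 1 (c4 p)).1 (dR 1 (c4 p)).2 = 0 := by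
  have e1 : ∀ p : Pt (j + 1), edge7 1 1 0 3 1 G (c4 p).1 (c4 p).2 =
      -edge7 1 7 2 (-3) (-1) G p.1 p.2 := by
    intro p
    have := c4_rw hPlA hEdg hB (u1 := 1) (u2 := 0) (v1 := 3) (v2 := 1) (by norm_num) (by norm_num) p
    norm_num at this
    exact this
  have e2 : ∀ p : Pt (j + 1), edge7 1 1 0 3 1 G (dR 1 p).1 (dR 1 p).2 =
      edge7 1 (-1) 0 4 1 G p.1 p.2 := by
    intro p
    have := dR_rw hPlA hEdg hB (u1 := 1) (u2 := 0) (v1 := 3) (v2 := 1) (by norm_num) (by norm_num) p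
    norm_num at this
    exact this
  have e3 : ∀ p : Pt (j + 1), edge7 1 (-1) 0 4 1 G (c4 p).1 (c4 p).2 =
      -edge7 1 (-7) (-2) 4 1 G p.1 p.2 := by
    intro p
    have := c4_rw hPlA hEdg hB (u1 := -1) (u2 := 0) (v1 := 4) (v2 := 1) (by norm_num) (by norm_num) p
    norm_num at this
    exact this
  rw [e1 p, e2 p, e2 (c4 p), e3 p]
  obtain ⟨b, c, d, h⟩ := exM hPlA j p.1 p.2
  rw [ed hEdg hB.1 (by norm_num) (by norm_num) h, ed hEdg hB.1 (by norm_num) (by norm_num) h,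
    ed hEdg hB.1 (by norm_num) (by norm_num) h, ed hEdg hB.1 (by norm_num) (by norm_num) h]
  have v1 := Vneg hB.1 h (u1 := 1) (u2 := 0) (by norm_num)
  have v2 := Vneg hB.1 h (u1 := 7) (u2 := 2) (by norm_num)
  have v3 := Vneg hB.1 h (u1 := 3) (u2 := 1) (by norm_num)
  rw [neg_zero] at v1
  rw [v1, v2, v3]
  ring

/-- the functions are additive in the path -/
private lemma addp (u1 u2 v1 v2 w1 w2 : ℤ) (x y : ZMod (7 ^ (j + 1))) :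
    edge7 1 u1 u2 v1 v2 G x y + edge7 1 v1 v2 w1 w2 G x y = edge7 1 u1 u2 w1 w2 G x y := by
  unfold edge7
  abel

private lemma add4 (x y : ZMod (7 ^ (j + 1))) :
    edge7 1 1 0 1 1 G x y + edge7 1 1 1 4 3 G x y + edge7 1 4 3 2 1 G x y + edge7 1 2 1 3 1 G x y =
      edge7 1 1 0 3 1 G x y := by
  rw [addp, addp, addp]

/-- part (ii) -/
private lemma memE (hPlA : S7PlA) (hEdg : S7Edg) (hB : BalE7 (j + 2) G) :
    (((fun p : Pt (j + 1) => edge7 1 1 0 1 1 G p.1 p.2),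
        (fun p : Pt (j + 1) => edge7 1 1 1 4 3 G p.1 p.2)),
      ((fun p : Pt (j + 1) => edge7 1 4 3 2 1 G p.1 p.2),
        (fun p : Pt (j + 1) => edge7 1 2 1 3 1 G p.1 p.2))) ∈ subE7 (j + 1) := by
  refine ⟨⟨memA hPlA hEdg hB (by norm_num) (by norm_num),
    memA hPlA hEdg hB (by norm_num) (by norm_num), memA hPlA hEdg hB (by norm_num) (by norm_num),
    memA hPlA hEdg hB (by norm_num) (by norm_num)⟩, fun p => ⟨rel1 hPlA hEdg hB p,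
      rel2 hPlA hEdg hB p, rel3 hPlA hEdg hB p, rel4 hPlA hEdg hB p, ?_⟩⟩
  show (edge7 1 1 0 1 1 G p.1 p.2 + edge7 1 1 1 4 3 G p.1 p.2 + edge7 1 4 3 2 1 G p.1 p.2 +
      edge7 1 2 1 3 1 G p.1 p.2) +
    (edge7 1 1 0 1 1 G (c4 p).1 (c4 p).2 + edge7 1 1 1 4 3 G (c4 p).1 (c4 p).2 +
      edge7 1 4 3 2 1 G (c4 p).1 (c4 p).2 + edge7 1 2 1 3 1 G (c4 p).1 (c4 p).2) -
    (edge7 1 1 0 1 1 G (dR 1 p).1 (dR 1 p).2 + edge7 1 1 1 4 3 G (dR 1 p).1 (dR 1 p).2 +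
      edge7 1 4 3 2 1 G (dR 1 p).1 (dR 1 p).2 + edge7 1 2 1 3 1 G (dR 1 p).1 (dR 1 p).2) -
    (edge7 1 1 0 1 1 G (dR 1 (c4 p)).1 (dR 1 (c4 p)).2 +
      edge7 1 1 1 4 3 G (dR 1 (c4 p)).1 (dR 1 (c4 p)).2 +
      edge7 1 4 3 2 1 G (dR 1 (c4 p)).1 (dR 1 (c4 p)).2 +
      edge7 1 2 1 3 1 G (dR 1 (c4 p)).1 (dR 1 (c4 p)).2) = 0
  rw [add4, add4, add4, add4]
  exact rel5 hPlA hEdg hB p

/-! ### Injectivity -/

/-- the path from `v` to `u` has the value zero for all matrices -/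
private def Z (j : ℕ) (G : ℤ → ℤ → ℂ) (u1 u2 v1 v2 : ℤ) : Prop :=
  (u1 ≠ 0 ∨ u2 ≠ 0) ∧ (v1 ≠ 0 ∨ v2 ≠ 0) ∧
    ∀ p : Pt (j + 1), edge7 1 u1 u2 v1 v2 G p.1 p.2 = 0

private lemma Z.tr {u1 u2 v1 v2 w1 w2 : ℤ} (h : Z j G u1 u2 v1 v2) (h' : Z j G v1 v2 w1 w2) :
    Z j G u1 u2 w1 w2 :=
  ⟨h.1, h'.2.1, fun p => by rw [← addp u1 u2 v1 v2 w1 w2, h.2.2 p, h'.2.2 p, add_zero]⟩

private lemma Z.sy {u1 u2 v1 v2 : ℤ} (h : Z j G u1 u2 v1 v2) : Z j G v1 v2 u1 u2 :=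
  ⟨h.2.1, h.1, fun p => by
    have := h.2.2 p
    have e : edge7 1 v1 v2 u1 u2 G p.1 p.2 = -edge7 1 u1 u2 v1 v2 G p.1 p.2 := by
      unfold edge7; abel
    rw [e, this, neg_zero]⟩

private lemma Z.neg (hPlA : S7PlA) (hEdg : S7Edg) (hB : BalE7 (j + 2) G) {u1 u2 v1 v2 : ℤ}
    (h : Z j G u1 u2 v1 v2) : Z j G u1 u2 (-v1) (-v2) := by
  have hv' : -v1 ≠ 0 ∨ -v2 ≠ 0 := by rcases h.2.1 with h | h <;> [left; right] <;> simpa using h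
  refine ⟨h.1, hv', fun p => ?_⟩
  obtain ⟨b, c, d, hp⟩ := exM hPlA j p.1 p.2
  rw [ed hEdg hB.1 h.1 hv' hp, Vneg hB.1 hp h.2.1, ← ed hEdg hB.1 h.1 h.2.1 hp, h.2.2 p]

private lemma Z.st (hPlA : S7PlA) (hEdg : S7Edg) (hB : BalE7 (j + 2) G) {u1 u2 v1 v2 : ℤ}
    (h : Z j G u1 u2 v1 v2) : Z j G (-u1) u2 (-v1) v2 := by
  have hu' : -u1 ≠ 0 ∨ u2 ≠ 0 := by rcases h.1 with h | h <;> [left; right] <;> simpa using h
  have hv' : -v1 ≠ 0 ∨ v2 ≠ 0 := by rcases h.2.1 with h | h <;> [left; right] <;> simpa using h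
  refine ⟨hu', hv', fun p => ?_⟩
  rw [← ng_rw hPlA hEdg hB h.1 h.2.1 p]
  exact h.2.2 (ng p)

private lemma Z.sw (hPlA : S7PlA) (hEdg : S7Edg) (hB : BalE7 (j + 2) G) {u1 u2 v1 v2 : ℤ}
    (h : Z j G u1 u2 v1 v2) : Z j G u2 u1 v2 v1 := by
  refine ⟨h.1.symm, h.2.1.symm, fun p => ?_⟩
  have := sw_rw hPlA hEdg hB h.1 h.2.1 p
  rw [h.2.2] at this
  exact (neg_eq_zero.1 this.symm)

private lemma Z.rm (hPlA : S7PlA) (hEdg : S7Edg) (hB : BalE7 (j + 2) G) {u1 u2 v1 v2 : ℤ}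
    (h : Z j G u1 u2 v1 v2) (α β γ δ : ℤ) (hm : α * δ - 49 * β * γ = 1) :
    Z j G (α * u1 + 7 * β * u2) (7 * γ * u1 + δ * u2) (α * v1 + 7 * β * v2)
      (7 * γ * v1 + δ * v2) := by
  have hdet : α * δ - 7 * β * (7 * γ) ≠ 0 := by
    intro h0
    have : (1 : ℤ) = 0 := by linear_combination h0 - hm
    exact absurd this one_ne_zero
  refine ⟨ne_zero_of_det hdet h.1, ne_zero_of_det hdet h.2.1, fun p => ?_⟩
  rw [← Pool.Agent.Helper9.S7.rm hPlA hEdg hB h.1 h.2.1 hm p]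
  exact h.2.2 _

/-- the cusps of the matrices of `rep49` are equivalent to `∞` -/
private lemma cusps (hPlA : S7PlA) (hEdg : S7Edg) (hB : BalE7 (j + 2) G)
    (h1 : ∀ p : Pt (j + 1), edge7 1 1 0 1 1 G p.1 p.2 = 0)
    (h2 : ∀ p : Pt (j + 1), edge7 1 1 1 4 3 G p.1 p.2 = 0)
    (h3 : ∀ p : Pt (j + 1), edge7 1 4 3 2 1 G p.1 p.2 = 0)
    (h4 : ∀ p : Pt (j + 1), edge7 1 2 1 3 1 G p.1 p.2 = 0) :
    (Z j G 1 0 1 0 ∧ Z j G 1 0 0 1 ∧ Z j G 1 0 1 1 ∧ Z j G 1 0 (-1) 1 ∧ Z j G 1 0 2 1 ∧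
      Z j G 1 0 (-2) 1 ∧ Z j G 1 0 3 1 ∧ Z j G 1 0 (-3) 1 ∧ Z j G 1 0 4 1 ∧ Z j G 1 0 (-4) 1) ∧
    (Z j G 1 0 1 2 ∧ Z j G 1 0 (-1) 2 ∧ Z j G 1 0 1 3 ∧ Z j G 1 0 (-1) 3 ∧
      Z j G 1 0 3 2 ∧ Z j G 1 0 (-3) 2 ∧ Z j G 1 0 2 3 ∧ Z j G 1 0 (-2) 3 ∧
      Z j G 1 0 5 2 ∧ Z j G 1 0 (-5) 2) := by
  have a1 : Z j G 1 0 1 1 := ⟨by norm_num, by norm_num, h1⟩
  have g1 : Z j G 1 1 4 3 := ⟨by norm_num, by norm_num, h2⟩
  have g2 : Z j G 4 3 2 1 := ⟨by norm_num, by norm_num, h3⟩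
  have g3 : Z j G 2 1 3 1 := ⟨by norm_num, by norm_num, h4⟩
  have a2 : Z j G 1 0 2 1 := (a1.tr g1).tr g2
  have a3 : Z j G 1 0 3 1 := a2.tr g3
  have i0 : Z j G 1 0 1 0 := a1.tr a1.sy
  have i1 : Z j G 1 0 (-1) 0 := by
    have := i0.neg hPlA hEdg hB
    norm_num at this
    exact this
  have star : ∀ {s t : ℤ}, Z j G 1 0 s t → Z j G 1 0 (-s) t := fun h =>
    i1.tr (h.st hPlA hEdg hB)
  have b1 : Z j G 1 0 (-1) 1 := star a1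
  have b2 : Z j G 1 0 (-2) 1 := star a2
  have b3 : Z j G 1 0 (-3) 1 := star a3
  have c0 : Z j G 0 1 1 1 := a1.sw hPlA hEdg hB
  have o1 : Z j G 1 0 0 1 := a1.tr c0.sy
  have swap : ∀ {s t : ℤ}, Z j G 1 0 s t → Z j G 1 0 t s := fun h =>
    o1.tr (h.sw hPlA hEdg hB)
  have d2 : Z j G 1 0 1 2 := swap a2
  have d3 : Z j G 1 0 1 3 := swap a3
  have d2' : Z j G 1 0 (-1) 2 := star d2
  have d3' : Z j G 1 0 (-1) 3 := star d3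
  have a4 : Z j G 1 0 4 1 := by
    have := (b3.rm hPlA hEdg hB 1 1 0 1 (by norm_num))
    norm_num at this
    exact this
  have b4 : Z j G 1 0 (-4) 1 := star a4
  have f1 : Z j G 1 0 (-2) 3 := by
    have := g1.rm hPlA hEdg hB 5 (-1) (-1) 10 (by norm_num)
    norm_num at this
    exact d2'.tr this.sy
  have f2 : Z j G 1 0 2 3 := by
    have := star f1
    rwa [neg_neg] at this
  have f3 : Z j G 1 0 3 2 := swap f2
  have f4 : Z j G 1 0 (-3) 2 := star f3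
  have k1 : Z j G 1 0 5 2 := by
    have := (((g3.rm hPlA hEdg hB 3 (-1) 1 (-16) (by norm_num)).sw hPlA hEdg hB).sy.neg
      hPlA hEdg hB)
    norm_num at this
    exact a2.tr this.sy
  have k2 : Z j G 1 0 (-5) 2 := star k1
  exact ⟨⟨i0, o1, a1, b1, a2, b2, a3, b3, a4, b4⟩, d2, d2', d3, d3', f3, f4, f2, f1, k1, k2⟩

end

/-- Module E1. -/
theorem hE1 (h1 : S7Edg) (h2 : S7PlA) (h3 : S7Typ) (h4 : S7Rep)
    (h5 : Pool.Agent.Helper14.CV.StFar) : S7E1 := by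
  have _ := h3
  intro k G hk hB
  obtain ⟨j, rfl⟩ : ∃ j, k = j + 2 := ⟨k - 2, by omega⟩
  refine ⟨memE h2 h1 hB, fun hz => ?_⟩
  refine h5 ℂ _ G hB.1.1 fun p q r s h => ?_
  obtain ⟨⟨q0, q1, q2, q3, q4, q5, q6, q7, q8, q9⟩, r0, r1, r2, r3, r4, r5, r6, r7, r8, r9⟩ :=
    cusps h2 h1 hB (fun p => (hz p.1 p.2).1) (fun p => (hz p.1 p.2).2.1)
      (fun p => (hz p.1 p.2).2.2.1) (fun p => (hz p.1 p.2).2.2.2)
  have hL : ∀ t ∈ rep49, Z j G 1 0 t.1 t.2.2.1 ∧ Z j G 1 0 t.2.1 t.2.2.2 := by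
    have n0 := q0.neg h2 h1 hB
    have n1 := q1.neg h2 h1 hB
    have n2 := q2.neg h2 h1 hB
    have n3 := q3.neg h2 h1 hB
    have n4 := q4.neg h2 h1 hB
    have n5 := q5.neg h2 h1 hB
    have n6 := q6.neg h2 h1 hB
    have n7 := q7.neg h2 h1 hB
    have n8 := q8.neg h2 h1 hB
    have n9 := q9.neg h2 h1 hB
    have m0 := r0.neg h2 h1 hB
    have m1 := r1.neg h2 h1 hB
    have m2 := r2.neg h2 h1 hB
    have m3 := r3.neg h2 h1 hB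
    have m4 := r4.neg h2 h1 hB
    have m5 := r5.neg h2 h1 hB
    have m6 := r6.neg h2 h1 hB
    have m7 := r7.neg h2 h1 hB
    have m8 := r8.neg h2 h1 hB
    have m9 := r9.neg h2 h1 hB
    simp only [neg_neg, neg_zero] at n0 n1 n2 n3 n4 n5 n6 n7 n8 n9 m0 m1 m2 m3 m4 m5 m6 m7 m8 m9
    intro t ht
    simp only [rep49, List.mem_cons, List.not_mem_nil, or_false] at ht
    rcases ht with rfl | rfl | rfl | rfl | rfl | rfl | rfl | rfl | rfl | rfl | rfl | rfl | rfl |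
      rfl | rfl | rfl | rfl | rfl | rfl | rfl | rfl | rfl | rfl | rfl | rfl | rfl | rfl | rfl |
      rfl | rfl | rfl | rfl | rfl | rfl | rfl | rfl | rfl | rfl | rfl | rfl | rfl | rfl | rfl |
      rfl | rfl | rfl | rfl | rfl | rfl | rfl | rfl | rfl | rfl | rfl | rfl | rfl <;>
    exact ⟨by assumption, by assumption⟩
  obtain ⟨m, hm, α, β, γ, δ, hd, e1, e2, e3, e4⟩ := h4.2 p q r s h
  obtain ⟨f1, f2⟩ := hL m hm
  obtain ⟨x, y, hp⟩ := exPl j hd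
  have z := f1.sy.tr f2
  have e := z.2.2 (x, y)
  rw [ed h1 hB.1 z.1 z.2.1 hp] at e
  have e' := sub_eq_zero.1 e
  unfold V at e'
  rw [pow_one] at e'
  rw [e1, e2, e3, e4]
  exact e'

end Pool.Agent.Helper9.S7
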